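import Mathlib
import Pool.Agent.Helper42.EQM.G
import Pool.Agent.Helper84.EQM.C
import Pool.Agent.Helper91.UN.Fld

/-!
# Project EQMU: the fields
-/

set_option autoImplicit false
set_option linter.unusedSectionVars false

open NumberField IsDedekindDomain Module

open scoped Pointwise nonZeroDivisors

namespace Pool.Agent.Helper42.EQMU

open Helper45.TC Helper84.TC Helper84.UN Helper84.LIN

section fields

variable {L N Ω : Type} [Field L] [NumberField L] [Field N] [NumberField N] [Field Ω]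
  [Algebra L N] [Algebra L Ω] [Algebra N Ω] [IsScalarTower L N Ω] [IsGalois L Ω] [IsGalois N Ω]
  [IsAlgClosed Ω] [IsGalois L N] {p : ℕ} [hp : Fact p.Prime]

/-- a character is not zero on a normal subgroup of index prime to `p` -/
lemma res_ne (hm : ¬ p ∣ finrank L N) {θ : (Ω ≃ₐ[L] Ω) → ZMod p} (hθ : θ ∈ Ch L Ω p)
    (hne : θ ≠ 0) : (fun g : Ω ≃ₐ[N] Ω => θ (rs L g)) ≠ 0 := by
  intro h
  apply hne
  funext g
  set n := Nat.card (N ≃ₐ[L] N) with hn
  have hn' : (n : ZMod p) ≠ 0 := by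
    rw [hn, IsGalois.card_aut_eq_finrank, Ne, ZMod.natCast_eq_zero_iff]
    exact hm
  have hfx : Fx N (g ^ n) := by
    rw [fx_iff_rn, map_pow, hn, pow_card_eq_one']
  have h1 := congrFun h (lf _ hfx)
  change θ (rs L (lf _ hfx)) = 0 at h1
  rw [rs_lf, Ch_pow hθ] at h1
  exact (mul_eq_zero.1 h1).resolve_left hn'

/-- the fields which belong to the character `θ` of the group of `L` and to its restriction to the
group of `N` -/
theorem exists_fields (hm : ¬ p ∣ finrank L N) {θ : (Ω ≃ₐ[L] Ω) → ZMod p} (hθ : θ ∈ Ch L Ω p)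
    (hne : θ ≠ 0) : ∃ (N₁ : IntermediateField L Ω) (_ : NumberField N₁)
      (E : IntermediateField N Ω) (_ : NumberField E) (_ : Algebra N₁ E),
      IsScalarTower L N₁ E ∧ IsScalarTower N₁ E Ω ∧ IsGalois L N₁ ∧ finrank L N₁ = p ∧
      (∀ g : Ω ≃ₐ[L] Ω, Fx N₁ g ↔ θ g = 0) ∧ finrank N E = p ∧
      (∀ g : Ω ≃ₐ[N] Ω, Fx E g ↔ θ (rs L g) = 0) ∧ IsGalois N₁ E ∧
      finrank N₁ E = finrank L N ∧
      ∀ g : E ≃ₐ[N₁] E, (∀ x : N, g (algebraMap N E x) = algebraMap N E x) → g = 1 := by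
  obtain ⟨N₁, h1, h2, h3, h4⟩ := Helper91.UN.exists_field hθ hne
  obtain ⟨E, e1, e2, e3, e4⟩ := Helper91.UN.exists_field (res_mem (F := N) hθ) (res_ne hm hθ hne)
  have hEO : IsGalois E Ω := inferInstance
  have hfx : ∀ g : Ω ≃ₐ[L] Ω, Fx E g ↔ Fx N g ∧ Fx N₁ g := by
    intro g
    constructor
    · intro h
      have h5 : Fx N g := fun x => h (algebraMap N E x)
      refine ⟨h5, ?_⟩
      have h6 : Fx E (lf g h5) := h
      rw [e4, rs_lf] at h6
      exact (h4 g).2 h6
    · rintro ⟨h5, h6⟩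
      have h7 : Fx E (lf g h5) := (e4 _).2 (by rw [rs_lf]; exact (h4 g).1 h6)
      exact h7
  -- the inclusion of `N₁`
  have hmem : ∀ x : N₁, algebraMap N₁ Ω x ∈ E := by
    intro x
    have h5 : algebraMap N₁ Ω x ∈ Set.range (algebraMap E Ω) := by
      rw [InfiniteGalois.mem_range_algebraMap_iff_fixed]
      intro τ
      have h6 : Fx E (rs N τ) := fun y => τ.commutes y
      rw [e4] at h6
      exact (h4 _).2 h6 x
    obtain ⟨y, hy⟩ := h5
    rw [← hy]
    exact y.2
  let algNE : Algebra N₁ E := ((algebraMap N₁ Ω).codRestrict E hmem).toAlgebra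
  have t1 : IsScalarTower N₁ E Ω := IsScalarTower.of_algebraMap_eq fun x => rfl
  have t2 : IsScalarTower L E Ω := IsScalarTower.of_algebraMap_eq fun x => rfl
  have t3 : IsScalarTower L N₁ E := IsScalarTower.of_algebraMap_eq fun x => by
    apply (algebraMap E Ω).injective
    rw [← IsScalarTower.algebraMap_apply L E Ω, ← IsScalarTower.algebraMap_apply N₁ E Ω,
      ← IsScalarTower.algebraMap_apply L N₁ Ω]
  have t4 : IsScalarTower L N E := IsScalarTower.of_algebraMap_eq fun x => by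
    apply (algebraMap E Ω).injective
    rw [← IsScalarTower.algebraMap_apply L E Ω, ← IsScalarTower.algebraMap_apply N E Ω,
      ← IsScalarTower.algebraMap_apply L N Ω]
  have hLE : IsGalois L E := by
    refine Helper84.EQM.isGalois_of_fx fun g τ hτ => ?_
    rw [hfx] at hτ ⊢
    have h5 := fx_conj' g⁻¹ hτ.1
    have h6 := fx_conj' g⁻¹ hτ.2
    rw [inv_inv] at h5 h6
    exact ⟨h5, h6⟩
  have hNE : IsGalois N₁ E := IsGalois.tower_top_of_isGalois L N₁ E
  have hdeg : finrank N₁ E = finrank L N := by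
    have h5 := Module.finrank_mul_finrank L N E
    have h6 := Module.finrank_mul_finrank L N₁ E
    rw [e3] at h5
    rw [h3, ← h5, mul_comm] at h6
    exact Nat.eq_of_mul_eq_mul_right hp.out.pos h6
  refine ⟨N₁, h1, E, e1, algNE, t3, t1, h2, h3, h4, e3, e4, hNE, hdeg, fun g hg => ?_⟩
  have hN1O : IsGalois N₁ Ω := IsGalois.tower_top_of_isGalois L N₁ Ω
  obtain ⟨γ, hγ⟩ := AlgEquiv.restrictNormalHom_surjective (F := N₁) (K₁ := E) Ω g
  have h5 : ∀ x : E, γ (algebraMap E Ω x) = algebraMap E Ω (g x) := by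
    intro x
    rw [← hγ]
    exact (AlgEquiv.restrictNormal_commutes γ E x).symm
  have h6 : Fx E (rs L γ) := by
    rw [hfx]
    refine ⟨fun x => ?_, fun x => γ.commutes x⟩
    change γ (algebraMap N Ω x) = algebraMap N Ω x
    rw [IsScalarTower.algebraMap_apply N E Ω, h5, hg]
  refine AlgEquiv.ext fun x => ?_
  apply (algebraMap E Ω).injective
  rw [← h5]
  exact h6 x

end fields

end Pool.Agent.Helper42.EQMU
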