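import Mathlib
import Pool.Agent.Helper42.EQMU.U
import Pool.Agent.Helper45.EQM.Fin
import Pool.Agent.Helper91.LIN.Unr
import Pool.Agent.Helper84.LIN.FinU
import Pool.Agent.Helper84.LIN.Un

/-!
# Project EQMU: from the data of the primes to the theorem on unramified representations
-/

set_option autoImplicit false
set_option linter.unusedSectionVars false

open NumberField IsDedekindDomain Module IsLocalRing Pool.Agent.Helper16.TR Pool.Agent.Helper27.TE
  Pool.Agent.Helper27.LP Pool.Agent.Helper27.TFM Matrix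

open scoped Pointwise nonZeroDivisors

namespace Pool.Agent.Helper42.EQMU

open Pool.Agent.Helper77.SO (TameSub GK)
open Helper45.TC
open Helper91.LIN (ids mem_ids exists_of_mem_ids card_chr_eq PD0)
open Helper84.TC (Fx rs lf un up cj mem_up)
open Helper91
open Pool.Agent.Helper90.EQ (Sev LayG un_un dg)
open Pool.Agent.Helper84.EQM (Cmp)

section ram

variable {L Ω : Type} [Field L] [NumberField L] [Field Ω] [Algebra L Ω] [IsGalois L Ω] {p d : ℕ}
  [Fact p.Prime] {ι : Type} {T : Finset (HeightOneSpectrum (𝓞 L))}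
  {v : ι → HeightOneSpectrum (𝓞 L)} {χ : Fin d → (Ω ≃ₐ[L] Ω) → ZMod p}
  {x y : ι → Fin d → ZMod p} {c : ι → ℕ}

lemma x_ne {C : Fin d → ZMod p} {j : ι} (hC : ∑ a, C a * x j a ≠ 0) : x j ≠ 0 := by
  intro h1
  apply hC
  rw [h1]
  exact Finset.sum_eq_zero fun a _ => by rw [Pi.zero_apply, mul_zero]

/-- the character is ramified at `v j` -/
lemma ram_of (h : PD0 L Ω p T v χ x y c) {C : Fin d → ZMod p} {j : ι}
    (hC : ∑ a, C a * x j a ≠ 0) : ¬ Unr L Ω (∑ a, C a • χ a) (v j) := by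
  intro hunr
  obtain ⟨Q, hQ, hQv⟩ := exists_above L Ω (v j)
  obtain ⟨τ, hτ, z, hz, hzτ⟩ := h.inert j Q hQ hQv (x_ne hC)
  have h1 := hunr Q hQ hQv τ hτ
  rw [Finset.sum_apply] at h1
  have h2 : ∑ a, (C a • χ a) τ = z * ∑ a, C a * x j a := by
    rw [Finset.mul_sum]
    refine Finset.sum_congr rfl fun a _ => ?_
    rw [Pi.smul_apply, smul_eq_mul, hzτ]
    ring
  rw [h2] at h1
  exact mul_ne_zero hz hC h1

end ram

/-- The conclusion of the theorem on unramified representations, for the set `S` of primes of `K`, the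
extension `F` of `K` and the field `M`. -/
def Goal (K F M : Type) [Field K] [NumberField K] [Field F] [NumberField F] [Field M]
    [NumberField M] [Algebra K F] [Algebra K M] [Algebra F M] (p δ n : ℕ)
    (S : Finset (Ideal (𝓞 K))) : Prop :=
  ∃ (L : Type) (_ : Field L) (_ : NumberField L) (_ : Algebra K L) (_ : Algebra F L)
    (N : Type) (_ : Field N) (_ : NumberField N) (_ : Algebra K N) (_ : Algebra F N)
    (_ : Algebra L N)
    (E : Type) (_ : Field E) (_ : NumberField E) (_ : Algebra K E) (_ : Algebra F E)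
    (_ : Algebra M E) (_ : Algebra N E),
    (IsScalarTower K F L ∧ IsGalois K L ∧ finrank F L = p ∧
      (∀ P : Ideal (𝓞 L), P.IsMaximal → P.comap (algebraMap (𝓞 K) (𝓞 L)) ∉ S →
        ¬ (P.comap (algebraMap (𝓞 F) (𝓞 L))).map (algebraMap (𝓞 F) (𝓞 L)) ≤ P ^ 2) ∧
      Units.rank L + 1 = p * (Units.rank F + 1) ∧
      Nat.card {ψ : GK L →* Multiplicative (ZMod p) //
        Chr L (AlgebraicClosure L) p {P | P.comap (algebraMap (𝓞 K) (𝓞 L)) ∈ S} ψ} =
          p ^ (δ + 1)) ∧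
    (IsScalarTower K L N ∧ IsScalarTower F L N ∧ IsGalois L N ∧ finrank L N = p ∧
      (∀ P : Ideal (𝓞 N), P.IsMaximal → ∀ q : Ideal (𝓞 L),
        P.comap (algebraMap (𝓞 L) (𝓞 N)) = q →
        (q.comap (algebraMap (𝓞 K) (𝓞 L)) ∈ S → q.map (algebraMap (𝓞 L) (𝓞 N)) ≤ P ^ p) ∧
        (q.comap (algebraMap (𝓞 K) (𝓞 L)) ∉ S → ¬ q.map (algebraMap (𝓞 L) (𝓞 N)) ≤ P ^ 2)) ∧
      Nat.card {ψ : GK N →* Multiplicative (ZMod p) // Chr N (AlgebraicClosure N) p ∅ ψ} =
        p ^ δ) ∧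
    (IsScalarTower K N E ∧ IsScalarTower F N E ∧ IsScalarTower K M E ∧ IsScalarTower F M E ∧
      IsGalois N E ∧ finrank N E = finrank F M ∧
      ∀ g : E ≃ₐ[N] E, (∀ x : M, g (algebraMap M E x) = algebraMap M E x) → g = 1) ∧
    ∀ (E' : Type) [Field E'] [NumberField E'] [Algebra N E'] [Algebra E' E] [IsScalarTower N E' E]
      [Algebra E (AlgebraicClosure E')] [IsScalarTower E' E (AlgebraicClosure E')]
      (S' : Set (Ideal (𝓞 E'))), S'.Finite →
      (∀ P ∈ S', P.IsMaximal → (p : 𝓞 E') ∉ P → ¬ p ∣ Nat.card (𝓞 E' ⧸ P) ^ finrank E' E - 1) →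
      ∀ (A : Type) [CommRing A] [IsLocalRing A] [IsNoetherianRing A] [TopologicalSpace A]
      [CharP (ResidueField A) p] [Finite (ResidueField A)] [IsAdicComplete (maximalIdeal A) A],
      IsAdic (maximalIdeal A) → ∀ m ≤ n,
      ∀ (ρ : GK E' →* GL (Fin m) A), Continuous ρ → TameSub E' S' ρ.ker →
      (∀ g : GK E', (∀ x : E, g (algebraMap E (AlgebraicClosure E') x) =
        algebraMap E (AlgebraicClosure E') x) → ∃ (j : ℕ) (c : ResidueField A),
        ((residual ρ g ^ p ^ j : GL (Fin m) (ResidueField A)) :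
          Matrix (Fin m) (Fin m) (ResidueField A)) = c • 1) → (Set.range ρ).Finite

section goal

variable {K F M L N Ω : Type} [Field K] [NumberField K] [Field F] [NumberField F] [Field M]
  [NumberField M] [Field L] [NumberField L] [Field N] [NumberField N] [Field Ω] [Algebra K F]
  [Algebra K M] [Algebra K L] [Algebra K N] [Algebra F M] [Algebra F L] [Algebra F N] [Algebra M N]
  [Algebra L N] [Algebra K Ω] [Algebra F Ω] [Algebra M Ω] [Algebra L Ω] [Algebra N Ω]
  [IsScalarTower F L Ω] [IsScalarTower L N Ω] [IsGalois F Ω] [IsGalois L Ω] [IsGalois N Ω]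
  [IsAlgClosed Ω] {p δ e : ℕ}
  [Fact p.Prime] {ω : ZMod p} {v₀ : HeightOneSpectrum (𝓞 F)} {χ₀ : (Ω ≃ₐ[F] Ω) → ZMod p}
  {S₀ : Finset (HeightOneSpectrum (𝓞 K))} {ι : Type}
  {v : ι → HeightOneSpectrum (𝓞 L)} {χ : Fin (δ + 1) → (Ω ≃ₐ[L] Ω) → ZMod p}
  {x y : ι → Fin (δ + 1) → ZMod p} {c : ι → ℕ} {ι' : Type}
  {v' : ι' → HeightOneSpectrum (𝓞 N)} {x' y' : ι' → Fin (δ + 1) → ZMod p} {c' : ι' → ℕ}

theorem goal_of (hC : Cmp K F M L N Ω p) (D : LayG F L Ω p v₀ χ₀) (hv₀ : un K v₀ ∈ S₀)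
    (he : 1 ≤ e) (hep : e < p) (hδ : 2 * δ ≤ p) (hω : 2 * e ≤ orderOf ω)
    (hL : Sev K L Ω p δ e ω S₀ v χ x y c)
    (hN : Sev K N Ω p δ e ω S₀ v' (fun a g => χ a (rs L g)) x' y' c') (C : Fin (δ + 1) → ZMod p)
    (hx : ∀ j, ∑ a, C a * x j a ≠ 0) (hx' : ∀ j, ∑ a, C a * x' j a ≠ 0) :
    Goal K F M p δ e (ids S₀) := by
  classical
  have hp : p.Prime := Fact.out
  have hp2 := D.odd
  have tKFL := hC.tKFL
  have tKLN := hC.tKLN
  have tFLN := hC.tFLN
  have tKMN := hC.tKMN
  have tFMN := hC.tFMN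
  have gKL := hC.gKL
  have gKN := hC.gKN
  have gLN : IsGalois L N := IsGalois.tower_top_of_isGalois K L N
  have gFL := D.gal
  have hm : ¬ p ∣ finrank L N := by
    rw [hC.dLN]
    exact hC.cop
  -- the character
  set θ : (Ω ≃ₐ[L] Ω) → ZMod p := ∑ a, C a • χ a with hθ
  have hθH : θ ∈ H L Ω p (up L S₀) :=
    Submodule.sum_mem _ fun a _ => Submodule.smul_mem _ _ (hL.pd.mem a)
  have hθg : ∀ g, θ g = ∑ a, C a * χ a g := by
    intro g
    rw [hθ, Finset.sum_apply]
    rfl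
  obtain ⟨j₀, -⟩ := hL.last 0
  obtain ⟨j₁, -⟩ := hN.last 0
  have hθ0 : θ ≠ 0 := by
    intro h1
    have h2 : C = 0 := by
      funext a
      exact Fintype.linearIndependent_iff.1 hL.pd.ind C h1 a
    apply hx j₀
    rw [h2]
    exact Finset.sum_eq_zero fun a _ => by rw [Pi.zero_apply, zero_mul]
  obtain ⟨N₁, nN₁, E, nE, aNE, f1, f2, f3, f4, f5, f6, f7, f8, f9, f10⟩ :=
    exists_fields (N := N) hm hθH.1 hθ0
  have gN₁ : IsGalois N₁ Ω := IsGalois.tower_top_of_isGalois L N₁ Ω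
  have gE : IsGalois E Ω := IsGalois.tower_top_of_isGalois N E Ω
  -- algebra structures
  let aKN₁ : Algebra K N₁ := ((algebraMap L N₁).comp (algebraMap K L)).toAlgebra
  have t1 : IsScalarTower K L N₁ := IsScalarTower.of_algebraMap_eq fun x => rfl
  let aFN₁ : Algebra F N₁ := ((algebraMap L N₁).comp (algebraMap F L)).toAlgebra
  have t2 : IsScalarTower F L N₁ := IsScalarTower.of_algebraMap_eq fun x => rfl
  let aKE : Algebra K E := ((algebraMap N₁ E).comp (algebraMap K N₁)).toAlgebra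
  have t3 : IsScalarTower K N₁ E := IsScalarTower.of_algebraMap_eq fun x => rfl
  let aFE : Algebra F E := ((algebraMap N₁ E).comp (algebraMap F N₁)).toAlgebra
  have t4 : IsScalarTower F N₁ E := IsScalarTower.of_algebraMap_eq fun x => rfl
  let aME : Algebra M E := ((algebraMap N E).comp (algebraMap M N)).toAlgebra
  have hNE : ∀ x : L, algebraMap N₁ E (algebraMap L N₁ x) = algebraMap N E (algebraMap L N x) := by
    intro x
    apply (algebraMap E Ω).injective
    rw [← IsScalarTower.algebraMap_apply N₁ E Ω, ← IsScalarTower.algebraMap_apply L N₁ Ω,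
      ← IsScalarTower.algebraMap_apply N E Ω, ← IsScalarTower.algebraMap_apply L N Ω]
  have t5 : IsScalarTower K M E := IsScalarTower.of_algebraMap_eq fun x => by
    change algebraMap N₁ E (algebraMap L N₁ (algebraMap K L x)) =
      algebraMap N E (algebraMap M N (algebraMap K M x))
    rw [hNE, ← IsScalarTower.algebraMap_apply K L N, ← IsScalarTower.algebraMap_apply K M N]
  have t6 : IsScalarTower F M E := IsScalarTower.of_algebraMap_eq fun x => by
    change algebraMap N₁ E (algebraMap L N₁ (algebraMap F L x)) =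
      algebraMap N E (algebraMap M N (algebraMap F M x))
    rw [hNE, ← IsScalarTower.algebraMap_apply F L N, ← IsScalarTower.algebraMap_apply F M N]
  have hcomap : ∀ P : HeightOneSpectrum (𝓞 L),
      P.asIdeal.comap (algebraMap (𝓞 K) (𝓞 L)) ∈ ids S₀ ↔ P ∈ up L S₀ := by
    intro P
    have h1 : (un K P).asIdeal = P.asIdeal.comap (algebraMap (𝓞 K) (𝓞 L)) := rfl
    rw [← h1, mem_ids, mem_up]
  refine ⟨L, inferInstance, inferInstance, inferInstance, inferInstance, N₁, inferInstance, nN₁,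
    aKN₁, aFN₁, inferInstance, E, inferInstance, nE, aKE, aFE, aME, aNE,
    ⟨tKFL, gKL, D.deg, ?_, Helper45.EQM.rank_odd hp2 D.deg, ?_⟩, ⟨t1, t2, f3, f4, ?_, ?_⟩,
    ⟨t3, t4, t5, t6, f8, by rw [f9, hC.dLN], ?_⟩, ?_⟩
  · intro P hP hPS
    have hbot : P ≠ ⊥ := by
      intro h
      rw [h] at hP
      exact RingOfIntegers.not_isField L (Ring.isField_iff_maximal_bot.2 hP)
    let P' : HeightOneSpectrum (𝓞 L) := ⟨P, hP.isPrime, hbot⟩
    have h1 : (un F P').asIdeal = P.comap (algebraMap (𝓞 F) (𝓞 L)) := rfl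
    rw [← h1]
    have h2 : un F P' ≠ v₀ := by
      intro h2
      refine hPS ?_
      have h3 : (un K P').asIdeal = P.comap (algebraMap (𝓞 K) (𝓞 L)) := rfl
      rw [← h3, mem_ids, ← un_un (F := F), h2]
      exact hv₀
    have h3 : Nat.card (P.inertia (L ≃ₐ[F] L)) = 1 := by
      rw [Nat.card_eq_one_iff_unique]
      refine ⟨⟨fun a b => Subtype.ext ?_⟩, inferInstance⟩
      rw [Helper84.EQ.inertia_one D P' h2 a a.2, Helper84.EQ.inertia_one D P' h2 b b.2]
    have h4 := Helper16.TR.card_inertia F L P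
    have h5 := (Helper16.TR.exists_ramIdx F L P (q := (un F P').asIdeal) rfl).2
    rw [← h4, h3] at h5
    exact h5
  · refine hL.card fun P => ?_
    have h1 : (un K P).asIdeal = P.asIdeal.comap (algebraMap (𝓞 K) (𝓞 L)) := rfl
    rw [Set.mem_ofPred_eq, ← h1, mem_ids]
  · intro P hP q hq
    have hqmax : q.IsMaximal := by
      rw [← hq]
      exact Ideal.isMaximal_comap_of_isIntegral_of_isMaximal P
    have hbot : q ≠ ⊥ := by
      intro h
      rw [h] at hqmax
      exact RingOfIntegers.not_isField L (Ring.isField_iff_maximal_bot.2 hqmax)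
    let q' : HeightOneSpectrum (𝓞 L) := ⟨q, hqmax.isPrime, hbot⟩
    constructor
    · intro hqS
      obtain ⟨j, hj⟩ := hL.all q' ((hcomap q').1 hqS)
      refine UN.le_pow f4 hθH.1 f5 P hP q' hq ?_
      rw [← hj]
      exact ram_of hL.pd (hx j)
    · intro hqS
      exact UN.not_le_sq f5 P hP q' hq (hθH.2 q' fun h1 => hqS ((hcomap q').2 h1))
  · have hclos : IsAlgClosure N₁ Ω := ⟨inferInstance, inferInstance⟩
    rw [card_chr_eq (IsAlgClosure.equiv N₁ (AlgebraicClosure N₁) Ω)]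
    have h1 := Helper84.LIN.card_unr0 (K := N₁) (n := e) he hL.pd hL.all
      (hL.rig hp2 hδ hω) ⟨j₀, x_ne (hx j₀)⟩ C (fun j _ => hx j) (fun g => by rw [f5, hθg])
    rw [Nat.add_sub_cancel] at h1
    rw [← h1]
    refine Nat.card_congr (Equiv.subtypeEquivRight fun ψ => ?_)
    constructor
    · rintro ⟨h2, h3⟩
      exact ⟨h2, fun Q hQ γ hγ => h3 Q hQ (Set.notMem_empty _) γ hγ⟩
    · rintro ⟨h2, h3⟩
      exact ⟨h2, fun Q hQ _ γ hγ => h3 Q hQ γ hγ⟩
  · intro g hg
    obtain ⟨γ, hγ⟩ := AlgEquiv.restrictNormalHom_surjective (F := N₁) (K₁ := E) Ω g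
    have h5 : ∀ x : E, γ (algebraMap E Ω x) = algebraMap E Ω (g x) := by
      intro x
      rw [← hγ]
      exact (AlgEquiv.restrictNormal_commutes γ E x).symm
    have tKNO := hC.tKNO
    have tMNO := hC.tMNO
    have tKLO : IsScalarTower K L Ω := IsScalarTower.of_algebraMap_eq fun x => by
      rw [IsScalarTower.algebraMap_apply L N Ω, ← IsScalarTower.algebraMap_apply K L N,
        ← IsScalarTower.algebraMap_apply K N Ω]
    have h6 : Fx N (rs K (rs L γ)) := by
      rw [hC.fx]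
      refine ⟨fun x => ?_, fun x => ?_⟩
      · change γ (algebraMap M Ω x) = algebraMap M Ω x
        have h7 : algebraMap M Ω x = algebraMap E Ω (algebraMap M E x) := by
          change algebraMap M Ω x = algebraMap E Ω (algebraMap N E (algebraMap M N x))
          rw [← IsScalarTower.algebraMap_apply N E Ω, ← IsScalarTower.algebraMap_apply M N Ω]
        rw [h7, h5, hg]
      · change γ (algebraMap L Ω x) = algebraMap L Ω x
        rw [IsScalarTower.algebraMap_apply L N₁ Ω, γ.commutes]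
    refine f10 g fun x => ?_
    apply (algebraMap E Ω).injective
    rw [← h5, ← IsScalarTower.algebraMap_apply N E Ω]
    exact h6 x
  · intro E' _ _ _ _ _ _ _ S' hS' hSS A _ _ _ _ _ _ _ hA m hm ρ hρ hTame hres
    have gEE : IsGalois E' E := IsGalois.tower_top_of_isGalois N₁ E' E
    refine Helper45.EQ.descent_fix (F := E) (p := p) rfl (T := ∅) ?_ hS'
      (fun P hP hPm hPp hd => absurd hd (hSS P hP hPm hPp)) ρ hρ hTame hres
    intro S hS hSS' ρ' hρ' hT' hr'
    exact Helper84.LIN.finite_unr0 (Ω := Ω) (K₀ := N) hp2 he hep hN.pd (hN.rig hp2 hδ hω)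
      ⟨j₁, x_ne (hx' j₁)⟩ C (fun j _ => hx' j) (fun g => by rw [f7, hθg]) hS
      (fun P hP hPm hPp hd => hSS' P hP hPm hPp hd) A hA hm ρ' hρ' hT' hr'

end goal

end Pool.Agent.Helper42.EQMU
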