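import Mathlib
import Pool.Agent.Helper42.EQMU.Fin
import Pool.Agent.Helper45.EQM.Cp
import Pool.Agent.Helper77.EQM.U2
import Pool.Agent.Helper77.EQM.F3
import Pool.Agent.Helper77.EQMU.Da

/-!
# Project EQMU: the final theorem
-/

set_option autoImplicit false

open NumberField IsDedekindDomain Module

open scoped Pointwise nonZeroDivisors

namespace Pool.Agent.Helper42.EQMU

open Helper45.TC
open Helper91.LIN (ids mem_ids exists_of_mem_ids)

/-- the theorem, from the data -/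
theorem final_ofU {K F M : Type} [Field K] [NumberField K] [Field F] [NumberField F] [Field M]
    [NumberField M] [Algebra K F] [Algebra K M] [Algebra F M] [Algebra F (AlgebraicClosure K)]
    [IsGalois F (AlgebraicClosure K)] [Algebra M (AlgebraicClosure K)] {p : ℕ} [Fact p.Prime]
    {δ e c₀ : ℕ} (he : 1 ≤ e) (hep : e < p) (h3 : 3 ≤ δ) (hδ : 2 * δ ≤ p) (hodd : Odd δ)
    (hD : Helper77.EQMU.DataU K F M p δ e c₀) (B : Set (Ideal (𝓞 K))) (hB : B.Finite) :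
    ∃ S : Finset (Ideal (𝓞 K)), S.card = 3 ∧
      (∀ P ∈ S, P ∉ B ∧ P.IsMaximal ∧ (Nat.card (𝓞 K ⧸ P)).Prime ∧
        p ∣ Nat.card (𝓞 K ⧸ P) ^ c₀ - 1) ∧ Goal K F M p δ e S := by
  obtain ⟨C, hC⟩ := Helper77.EQMU.sum_ne h3 hδ hodd
  have hemb : Function.Injective (fun w : HeightOneSpectrum (𝓞 K) => w.asIdeal) :=
    fun a b h => HeightOneSpectrum.ext h
  have hB' : {w : HeightOneSpectrum (𝓞 K) | w.asIdeal ∈ B}.Finite := hB.preimage hemb.injOn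
  obtain ⟨ω, v₀, χ₀, L, N, _, _, _, _, _, _, _, _, _, _, _, _, _, _, S₀, ι, ι', v, v', χ, x, y,
    x', y', c, c', hCmp, D, hv₀, hcard, hSB, hpr, hdvd, hω, -, -, -, -, hL, hx, hN, hx'⟩ :=
    hD _ hB'
  have gL : IsGalois L (AlgebraicClosure K) :=
    IsGalois.tower_top_of_isGalois F L (AlgebraicClosure K)
  have gN : IsGalois N (AlgebraicClosure K) :=
    IsGalois.tower_top_of_isGalois L N (AlgebraicClosure K)
  refine ⟨ids S₀, ?_, ?_, goal_of hCmp D hv₀ he hep hδ hω hL hN C (hC _ _ hx) (hC _ _ hx')⟩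
  · rw [ids, Finset.card_map, hcard]
  · intro P hP
    obtain ⟨w, hw, rfl⟩ := exists_of_mem_ids hP
    exact ⟨hSB w hw, w.isMaximal, hpr w hw, hdvd w hw⟩

/-- the data -/
theorem exists_dataU (K : Type) [Field K] [NumberField K] (k e : ℕ) (hk : 1 ≤ k)
    (hke : 2 ^ k = e + e) (M₀ F M : IntermediateField K (AlgebraicClosure K))
    [NumberField M₀] [NumberField F] [NumberField M] (hgal₀ : IsGalois K M₀)
    (hsplit : M₀ = ⊥ ∨ ∃ v₁ v₂ : InfinitePlace K, v₁ ≠ v₂ ∧ ∀ w : InfinitePlace M₀,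
      w.comap (algebraMap K M₀) = v₁ ∨ w.comap (algebraMap K M₀) = v₂ → w.IsUnramified K)
    (hgal : IsGalois K F) (hcyc : IsCyclic (F ≃ₐ[K] F)) (hdeg : finrank K F = 2 ^ k)
    (hinf : IsUnramifiedAtInfinitePlaces K F) (hdis : M₀ ⊓ F = ⊥) (hM : M = M₀ ⊔ F)
    [Algebra F M] [IsScalarTower K F M] [IsScalarTower F M (AlgebraicClosure K)]
    [IsGalois F (AlgebraicClosure K)] :
    ∃ N₀ : ℕ, ∀ (p : ℕ) [Fact p.Prime], N₀ < p → p ≡ 1 [MOD 2 ^ k] → ∀ δ : ℕ, 1 ≤ δ →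
      e + e ∣ δ - 1 → 2 * δ ≤ p → Helper77.EQMU.DataU K F M p δ e (2 ^ k) := by
  have hFf : FiniteDimensional K F := FiniteDimensional.right ℚ K F
  have hM₀f : FiniteDimensional K M₀ := FiniteDimensional.right ℚ K M₀
  have hgM : IsGalois K M := by
    rw [hM]
    exact {}
  obtain ⟨s₀, hs₀⟩ := hcyc.exists_generator
  have hord : orderOf s₀ = 2 ^ k := by
    rw [orderOf_eq_card_of_forall_mem_zpowers hs₀, IsGalois.card_aut_eq_finrank, hdeg]
  obtain ⟨s, hs, hsx⟩ := Helper45.EQM.exists_s hdis hM s₀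
  have hco : ∀ x : F, ((algebraMap F M x : M) : AlgebraicClosure K) = x := fun x =>
    (IsScalarTower.algebraMap_apply F M (AlgebraicClosure K) x).symm
  have hres : ∀ x : F, s (algebraMap F M x) = algebraMap F M (s₀ x) := fun x =>
    Subtype.ext (by rw [hsx x (algebraMap F M x) (hco x), hco])
  refine Helper77.EQMU.dataU_of (F := F) (M := M) hinf hk hke hord hs₀ (hs.trans hord) hres ?_
  rcases hsplit with rfl | ⟨v₁, v₂, hv, hw⟩
  · refine Or.inl fun y => ?_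
    rw [bot_sup_eq] at hM
    have hy : (y : AlgebraicClosure K) ∈ F := by rw [← hM]; exact y.2
    exact ⟨⟨y, hy⟩, Subtype.ext (hco _)⟩
  · have hunr : ∀ v : InfinitePlace K, v = v₁ ∨ v = v₂ → ∀ w : InfinitePlace M,
        w.comap (algebraMap K M) = v → w.IsUnramified K := by
      intro v hv w hwv
      refine Helper45.EQM.unr_sup hM w fun w₀ hw₀ => hw w₀ ?_
      rw [hw₀, hwv]
      exact hv
    exact Or.inr (Helper77.EQM.exists_fun2 hv (hunr v₁ (Or.inl rfl)) (hunr v₂ (Or.inr rfl)))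

/-- the final theorem -/
theorem finalU (K : Type) [Field K] [NumberField K] (n k : ℕ) (hk : 1 ≤ k)
    (hn : 2 * n ≤ 2 ^ k) (M₀ F M : IntermediateField K (AlgebraicClosure K))
    [NumberField M₀] [NumberField F] [NumberField M] (hgal₀ : IsGalois K M₀)
    (hsplit : M₀ = ⊥ ∨ ∃ v₁ v₂ : InfinitePlace K, v₁ ≠ v₂ ∧ ∀ w : InfinitePlace M₀,
      w.comap (algebraMap K M₀) = v₁ ∨ w.comap (algebraMap K M₀) = v₂ → w.IsUnramified K)
    (hgal : IsGalois K F) (hcyc : IsCyclic (F ≃ₐ[K] F)) (hdeg : finrank K F = 2 ^ k)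
    (hinf : IsUnramifiedAtInfinitePlaces K F) (hdis : M₀ ⊓ F = ⊥) (hM : M = M₀ ⊔ F)
    [Algebra F M] [IsScalarTower K F M] [IsScalarTower F M (AlgebraicClosure K)] :
    ∃ N₀ : ℕ, ∀ (p : ℕ) [Fact p.Prime], N₀ < p → p ≡ 1 [MOD 2 ^ k] → ∀ δ : ℕ, 3 ≤ δ →
      δ ≡ 1 [MOD 2 ^ k] → 2 * δ ≤ p → ∀ B : Set (Ideal (𝓞 K)), B.Finite →
      ∃ S : Finset (Ideal (𝓞 K)), S.card = 3 ∧
        (∀ P ∈ S, P ∉ B ∧ P.IsMaximal ∧ (Nat.card (𝓞 K ⧸ P)).Prime ∧
          p ∣ Nat.card (𝓞 K ⧸ P) ^ 2 ^ k - 1) ∧ Goal K F M p δ n S := by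
  obtain ⟨e, hke⟩ : ∃ e, 2 ^ k = e + e := ⟨2 ^ (k - 1), by
    rw [← two_mul, ← pow_succ', Nat.sub_add_cancel hk]⟩
  have h2k : 2 ≤ 2 ^ k := by
    calc 2 = 2 ^ 1 := (pow_one 2).symm
      _ ≤ 2 ^ k := Nat.pow_le_pow_right (by norm_num) hk
  have hgF : IsGalois F (AlgebraicClosure K) :=
    IsGalois.tower_top_of_isGalois K F (AlgebraicClosure K)
  obtain ⟨N₀, hN₀⟩ := exists_dataU K k e hk hke M₀ F M hgal₀ hsplit hgal hcyc hdeg hinf hdis hM
  refine ⟨N₀ + e, fun p _ hpN hpk δ hδ3 hδ hδp B hB => ?_⟩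
  have hδ1 : 1 ≤ δ := by omega
  have hdvd : e + e ∣ δ - 1 := by
    rw [← hke]
    exact (Nat.modEq_iff_dvd' hδ1).1 hδ.symm
  have hodd : Odd δ := by
    obtain ⟨q, hq⟩ := hdvd
    exact ⟨e * q, by
      have h1 : (e + e) * q = 2 * (e * q) := by ring
      omega⟩
  obtain ⟨S, h1, h2, h3⟩ := final_ofU (F := F) (M := M) (e := e) (by omega) (by omega) hδ3 hδp
    hodd (hN₀ p (by omega) hpk δ hδ1 hdvd hδp) B hB
  refine ⟨S, h1, h2, ?_⟩
  obtain ⟨L, i1, i2, i3, i4, N, i5, i6, i7, i8, i9, E, i10, i11, i12, i13, i14, i15, g1, g2, g3,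
    g4⟩ := h3
  exact ⟨L, i1, i2, i3, i4, N, i5, i6, i7, i8, i9, E, i10, i11, i12, i13, i14, i15, g1, g2, g3,
    fun E' _ _ _ _ _ _ _ S' hS' hSS A _ _ _ _ _ _ _ hA m hm =>
      g4 E' S' hS' hSS A hA m (by omega)⟩

end Pool.Agent.Helper42.EQMU
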