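import Mathlib
import Pool.Agent.Helper42.EQMU.Res0

/-!
# Project EQMU: the final statement
-/

set_option autoImplicit false

open NumberField IsLocalRing Matrix

open scoped Pointwise

namespace Pool.Agent.Helper42.EQMU.Res

/-- The absolute Galois group of the field `K`. -/
abbrev G (K : Type) [Field K] : Type := AlgebraicClosure K ≃ₐ[K] AlgebraicClosure K

/-- The homomorphism `ρ` is unramified outside `S` and at most tamely ramified in `S`: for every
number field `F` containing `K` and embedded over `K` into the fixed field of the kernel of `ρ`,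
and every maximal ideal `P` of the ring of integers of `F` above a prime `q` of `K`, the ramification
index `e` of `P` over `q` is `1` if `q ∉ S` and is prime to the residue characteristic if `q ∈ S`. -/
def TameAt (K : Type) [Field K] [NumberField K] (S : Set (Ideal (𝓞 K))) {H : Type} [Group H]
    (ρ : G K →* H) : Prop :=
  ∀ (F : Type) [Field F] [NumberField F] [Algebra K F] (ι : F →ₐ[K] AlgebraicClosure K),
    ι.fieldRange ≤ IntermediateField.fixedField ρ.ker →
    ∀ (P : Ideal (𝓞 F)), P.IsMaximal →
    ∀ (q : Ideal (𝓞 K)), q = P.comap (algebraMap (𝓞 K) (𝓞 F)) →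
    ∀ e : ℕ, q.map (algebraMap (𝓞 K) (𝓞 F)) ≤ P ^ e →
      ¬ (q.map (algebraMap (𝓞 K) (𝓞 F)) ≤ P ^ (e + 1)) →
      (q ∉ S → e = 1) ∧ (q ∈ S → ¬ (ringChar (𝓞 K ⧸ q) ∣ e))

/-- The residual representation: the reduction of `ρ` modulo the maximal ideal. -/
noncomputable def residual {Γ A : Type} [Group Γ] [CommRing A] [IsLocalRing A] {n : ℕ}
    (ρ : Γ →* GL (Fin n) A) : Γ →* GL (Fin n) (ResidueField A) :=
  (Matrix.GeneralLinearGroup.map (residue A)).comp ρ

/-- The image under `τ` of the automorphisms which fix the number field `E` is projectively a `p`-group: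
for every such `g` some power of `τ g` with exponent a power of `p` is scalar. -/
def ProjectivelyPOver (p : ℕ) (E : Type) {E' k : Type} [Field E] [Field E']
    [Algebra E (AlgebraicClosure E')] [Field k] {n : ℕ} (τ : G E' →* GL (Fin n) k) : Prop :=
  ∀ g : G E', (∀ x : E, g (algebraMap E (AlgebraicClosure E') x) =
    algebraMap E (AlgebraicClosure E') x) →
    ∃ (j : ℕ) (a : k), ((τ g ^ p ^ j : GL (Fin n) k) : Matrix (Fin n) (Fin n) k) = a • 1

/-- The homomorphism `ψ` to the group of order `p` is continuous and unramified outside `S`: its kernel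
is open and it is trivial on the inertia groups of all maximal ideals `Q` of the ring of all algebraic
integers which lie above a prime outside `S`. -/
def UnramifiedOutside (p : ℕ) {K : Type} [Field K] [NumberField K] (S : Set (Ideal (𝓞 K)))
    (ψ : G K →* Multiplicative (ZMod p)) : Prop :=
  IsOpen (ψ.ker : Set (G K)) ∧ ∀ Q : Ideal (𝓞 (AlgebraicClosure K)), Q.IsMaximal →
    Q.comap (algebraMap (𝓞 K) (𝓞 (AlgebraicClosure K))) ∉ S → ∀ γ ∈ Q.inertia (G K), ψ γ = 1

/-- The field `F` is a cyclic extension of `K` of degree `c`, and all infinite places of `K` split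
completely in `F`. -/
structure SplitCyclic (K : Type) [Field K] [NumberField K] (c : ℕ)
    (F : IntermediateField K (AlgebraicClosure K)) : Prop where
  galois : IsGalois K F
  cyclic : IsCyclic (F ≃ₐ[K] F)
  degree : Module.finrank K F = c
  infinite : IsUnramifiedAtInfinitePlaces K F

/-- The field `M₀` is `K`, or it is a Galois extension of `K` and there are two infinite places of `K`
which split completely in `M₀`. -/
structure TwoSplit (K : Type) [Field K] [NumberField K]
    (M₀ : IntermediateField K (AlgebraicClosure K)) : Prop where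
  galois : IsGalois K M₀
  split : M₀ = ⊥ ∨ ∃ v₁ v₂ : InfinitePlace K, v₁ ≠ v₂ ∧ ∀ w : InfinitePlace M₀,
    w.comap (algebraMap K M₀) = v₁ ∨ w.comap (algebraMap K M₀) = v₂ → w.IsUnramified K

/-- The set `S` consists of three primes `P` of `K`, the residue fields of `P` have a prime number `q`
of elements, and `q ^ c` is congruent to `1` modulo `p`. -/
structure Primes (p c : ℕ) (K : Type) [Field K] [NumberField K] (S : Finset (Ideal (𝓞 K))) :
    Prop where
  card_eq : S.card = 3
  maximal : ∀ P ∈ S, P.IsMaximal
  prime : ∀ P ∈ S, (Nat.card (𝓞 K ⧸ P)).Prime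
  dvd : ∀ P ∈ S, p ∣ Nat.card (𝓞 K ⧸ P) ^ c - 1

/-- The number field `L` is a Galois extension of `K` and a cyclic extension of `F` of degree `p`, it is
unramified over `F` outside `S`, the rank of its group of units is `p (r + 1) - 1`, where `r` is the rank
for `F`, and there are `p ^ d` continuous homomorphisms from the absolute Galois group of `L` to the
group of order `p` which are unramified outside the primes above `S`. -/
structure Middle (p : ℕ) (K F L : Type) [Field K] [NumberField K] [Field F] [NumberField F] [Field L]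
    [NumberField L] [Algebra K F] [Algebra F L] [Algebra K L] (d : ℕ) (S : Set (Ideal (𝓞 K))) :
    Prop where
  tower : IsScalarTower K F L
  galois : IsGalois K L
  degree : Module.finrank F L = p
  unramified : ∀ P : Ideal (𝓞 L), P.IsMaximal → P.comap (algebraMap (𝓞 K) (𝓞 L)) ∉ S →
    ¬ (P.comap (algebraMap (𝓞 F) (𝓞 L))).map (algebraMap (𝓞 F) (𝓞 L)) ≤ P ^ 2
  rank_eq : Units.rank L + 1 = p * (Units.rank F + 1)
  characters : Nat.card {ψ : G L →* Multiplicative (ZMod p) //
    UnramifiedOutside p {P | P.comap (algebraMap (𝓞 K) (𝓞 L)) ∈ S} ψ} = p ^ d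

/-- The number field `N` is a cyclic extension of `L` of degree `p`, which is totally ramified at all
primes above `S` and unramified at all other primes, and there are `p ^ d` continuous homomorphisms from
the absolute Galois group of `N` to the group of order `p` which are unramified everywhere, that is,
`p ^ d` homomorphisms from the class group of `N` to the group of order `p`. -/
structure Top (p : ℕ) (K L N : Type) [Field K] [NumberField K] [Field L] [NumberField L] [Field N]
    [NumberField N] [Algebra K L] [Algebra L N] (d : ℕ) (S : Set (Ideal (𝓞 K))) : Prop where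
  galois : IsGalois L N
  degree : Module.finrank L N = p
  ramified : ∀ P : Ideal (𝓞 N), P.IsMaximal → ∀ q : Ideal (𝓞 L),
    P.comap (algebraMap (𝓞 L) (𝓞 N)) = q → q.comap (algebraMap (𝓞 K) (𝓞 L)) ∈ S →
    q.map (algebraMap (𝓞 L) (𝓞 N)) ≤ P ^ p
  unramified : ∀ P : Ideal (𝓞 N), P.IsMaximal → ∀ q : Ideal (𝓞 L),
    P.comap (algebraMap (𝓞 L) (𝓞 N)) = q → q.comap (algebraMap (𝓞 K) (𝓞 L)) ∉ S →
    ¬ q.map (algebraMap (𝓞 L) (𝓞 N)) ≤ P ^ 2
  characters : Nat.card {ψ : G N →* Multiplicative (ZMod p) // UnramifiedOutside p ∅ ψ} = p ^ d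

/-- The number field `E` is the compositum of its subfields `N` and `M₀` containing `K`, and it is
a Galois extension of `N` of the same degree as `M₀` over `K`. -/
structure Compositum (K M₀ N E : Type) [Field K] [NumberField K] [Field M₀] [NumberField M₀]
    [Field N] [NumberField N] [Field E] [NumberField E] [Algebra K M₀] [Algebra K N] [Algebra K E]
    [Algebra M₀ E] [Algebra N E] : Prop where
  tower : IsScalarTower K M₀ E
  tower' : IsScalarTower K N E
  galois : IsGalois N E
  degree : Module.finrank N E = Module.finrank K M₀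
  generated : IntermediateField.adjoin N (Set.range (algebraMap M₀ E)) = ⊤

/-- There are fields `F` as in the theorem, of every degree `2 ^ k` and for every `M₀`. -/
theorem exists_field (K : Type) [Field K] [NumberField K]
    (M₀ : IntermediateField K (AlgebraicClosure K)) [NumberField M₀] (k : ℕ) :
    ∃ (F : IntermediateField K (AlgebraicClosure K)) (_ : NumberField F),
      SplitCyclic K (2 ^ k) F ∧ M₀ ⊓ F = ⊥ := by
  obtain ⟨F, hF, h1, h2, h3, h4, h5⟩ := Helper45.EQM.exists_field K M₀ (c := 2 ^ k) (by positivity)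
  exact ⟨F, hF, ⟨h1, h2, h3, h4⟩, h5⟩

/-- Let `K` be a number field, `k ≥ 1`, `2 n ≤ 2 ^ k`, let `M₀` be `K` or a finite Galois extension
of `K` in which two infinite places of `K` split completely, and let `F` be a cyclic extension of `K` of
degree `2 ^ k` in which all infinite places split and such that the intersection of `F` and `M₀` is `K`.
For all large `p` congruent to `1` modulo `2 ^ k`, all `δ ≥ 3` congruent to `1` modulo `2 ^ k` with
`2 δ ≤ p` and all finite sets `B` of primes of `K` there are a set `S` of three primes outside `B` as in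
`Primes`, a field `L` as in `Middle` with `p ^ (δ + 1)` characters, an extension `N` of `L` as in `Top`
with `p ^ δ` unramified characters and the compositum `E` of `N` and `M₀`, such that for all complete
Noetherian local rings `A` with finite residue field of characteristic `p`, all `m ≤ n` and all fields
`E'` between `N` and `E` (for example `N` and `E`): all `ρ` from the absolute Galois group of `E'` to
`GL_m(A)` which are tame and ramified only in a finite set `S'` (for example the empty set) whose
members `P` are above `p` or satisfy `¬ p ∣ (N P) ^ [E : E'] - 1`, and whose residual representation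
restricted to `E` has projective image a `p`-group, have finite image. -/
theorem result (K : Type) [Field K] [NumberField K] (n k : ℕ) (hk : 1 ≤ k)
    (hn : 2 * n ≤ 2 ^ k) (M₀ F : IntermediateField K (AlgebraicClosure K))
    [NumberField M₀] [NumberField F] (hM₀ : TwoSplit K M₀)
    (hF : SplitCyclic K (2 ^ k) F) (hd : M₀ ⊓ F = ⊥) :
    ∃ N₀ : ℕ, ∀ (p : ℕ) [Fact p.Prime], N₀ < p → p ≡ 1 [MOD 2 ^ k] → ∀ δ : ℕ, 3 ≤ δ →
      δ ≡ 1 [MOD 2 ^ k] → 2 * δ ≤ p → ∀ B : Set (Ideal (𝓞 K)), B.Finite →
      ∃ (S : Finset (Ideal (𝓞 K))) (L : Type) (_ : Field L) (_ : NumberField L) (_ : Algebra K L)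
        (_ : Algebra F L) (N : Type) (_ : Field N) (_ : NumberField N) (_ : Algebra K N)
        (_ : Algebra L N) (E : Type) (_ : Field E) (_ : NumberField E) (_ : Algebra K E)
        (_ : Algebra M₀ E) (_ : Algebra N E),
      (∀ P ∈ S, P ∉ B) ∧ Primes p (2 ^ k) K S ∧
      Middle p K F L (δ + 1) (S : Set (Ideal (𝓞 K))) ∧ IsScalarTower K L N ∧
      Top p K L N δ (S : Set (Ideal (𝓞 K))) ∧ Compositum K M₀ N E ∧
      ∀ (A : Type) [CommRing A] [IsLocalRing A] [IsNoetherianRing A] [TopologicalSpace A]
      [CharP (ResidueField A) p] [Finite (ResidueField A)] [IsAdicComplete (maximalIdeal A) A],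
      IsAdic (maximalIdeal A) → ∀ m ≤ n,
      ∀ (E' : Type) [Field E'] [NumberField E'] [Algebra N E'] [Algebra E' E]
      [IsScalarTower N E' E] [Algebra E (AlgebraicClosure E')]
      [IsScalarTower E' E (AlgebraicClosure E')],
      ∀ S' : Set (Ideal (𝓞 E')), S'.Finite →
        (∀ P ∈ S', P.IsMaximal → (p : 𝓞 E') ∉ P →
          ¬ p ∣ Nat.card (𝓞 E' ⧸ P) ^ Module.finrank E' E - 1) →
        ∀ (ρ : G E' →* GL (Fin m) A), Continuous ρ → TameAt E' S' ρ →
        ProjectivelyPOver p E (residual ρ) → (Set.range ρ).Finite := by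
  have hnM : NumberField (M₀ ⊔ F : IntermediateField K (AlgebraicClosure K)) := by
    have h1 : FiniteDimensional K M₀ := FiniteDimensional.right ℚ K M₀
    have h2 : FiniteDimensional K F := FiniteDimensional.right ℚ K F
    have h3 : FiniteDimensional K (M₀ ⊔ F : IntermediateField K (AlgebraicClosure K)) :=
      inferInstance
    have h4 : FiniteDimensional ℚ (M₀ ⊔ F : IntermediateField K (AlgebraicClosure K)) :=
      FiniteDimensional.trans ℚ K _
    exact NumberField.mk
  obtain ⟨M, hM⟩ : ∃ M : IntermediateField K (AlgebraicClosure K), M = M₀ ⊔ F := ⟨_, rfl⟩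
  have hnM : NumberField M := by
    rw [hM]
    exact hnM
  have hFM : F ≤ M := by
    rw [hM]
    exact le_sup_right
  have hM₀M : M₀ ≤ M := by
    rw [hM]
    exact le_sup_left
  let _ : Algebra F M := (IntermediateField.inclusion hFM).toRingHom.toAlgebra
  have t1 : IsScalarTower K F M := IsScalarTower.of_algebraMap_eq fun x => rfl
  have t2 : IsScalarTower F M (AlgebraicClosure K) := IsScalarTower.of_algebraMap_eq fun x => rfl
  have hgal₀ := hM₀.galois
  have hgalF := hF.galois
  have hinf := hF.infinite
  obtain ⟨hgM, hdeg, -, -⟩ := Helper77.EQM.comp_data M₀ F M hd hM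
  obtain ⟨N₀, hN₀⟩ := finalU K n k hk hn M₀ F M hM₀.galois hM₀.split hF.galois hF.cyclic
    hF.degree hF.infinite hd hM
  refine ⟨N₀, fun p _ hp hpk δ hδ3 hδ hδp B hB => ?_⟩
  obtain ⟨S, h1, h2, L, _, _, _, _, N, _, _, _, _, _, E, _, _, _, _, _, _,
    ⟨h3, h4, h5, h6, h7, h8⟩, ⟨h9, h10, h11, h12, h13, h14⟩,
    ⟨h15, h16, h17, h18, h19, h20, h21⟩, h22⟩ := hN₀ p hp hpk δ hδ3 hδ hδp B hB
  let aM₀E : Algebra M₀ E :=
    ((algebraMap M E).comp (IntermediateField.inclusion hM₀M).toRingHom).toAlgebra
  refine ⟨S, L, _, _, _, _, N, _, _, _, _, E, _, _, _, aM₀E, _, fun P hP => (h2 P hP).1,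
    ⟨h1, fun P hP => (h2 P hP).2.1, fun P hP => (h2 P hP).2.2.1, fun P hP => (h2 P hP).2.2.2⟩,
    ⟨h3, h4, h5, h6, h7, h8⟩, h9, ⟨h11, h12, fun P hP q hq hS => (h13 P hP q hq).1 hS,
      fun P hP q hq hS => (h13 P hP q hq).2 hS, h14⟩, ⟨?_, h15, h19, by rw [h20, hdeg], ?_⟩, ?_⟩
  · refine IsScalarTower.of_algebraMap_eq fun x => ?_
    rw [IsScalarTower.algebraMap_apply K M E]
    rfl
  · rw [← IsGalois.fixedField_fixingSubgroup (IntermediateField.adjoin N _)]
    have h23 : (IntermediateField.adjoin N (Set.range (algebraMap M₀ E))).fixingSubgroup = ⊥ := by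
      rw [eq_bot_iff]
      intro g hg
      rw [Subgroup.mem_bot]
      rw [IntermediateField.mem_fixingSubgroup_iff] at hg
      have hgM₀ : ∀ x : M₀, g (algebraMap M₀ E x) = algebraMap M₀ E x := fun x =>
        hg _ (IntermediateField.subset_adjoin N _ ⟨x, rfl⟩)
      refine h21 g fun x => ?_
      let τ : M ≃ₐ[K] M := AlgEquiv.restrictNormal (g.restrictScalars K) M
      have hτ : ∀ x : M, algebraMap M E (τ x) = g (algebraMap M E x) := fun x =>
        AlgEquiv.restrictNormal_commutes (g.restrictScalars K) M x
      have h24 : τ = 1 := by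
        refine Helper45.EQM.eq_one_sup hM τ (fun y hy => ?_) fun y hy => ?_
        · apply (algebraMap M E).injective
          rw [hτ]
          exact hgM₀ ⟨y, hy⟩
        · apply (algebraMap M E).injective
          rw [hτ]
          have h25 : y = algebraMap F M ⟨y, hy⟩ := Subtype.ext rfl
          rw [h25, ← IsScalarTower.algebraMap_apply F M E, IsScalarTower.algebraMap_apply F N E,
            g.commutes]
      rw [← hτ, h24, AlgEquiv.one_apply]
    rw [h23, IntermediateField.fixedField_bot]
  · intro A _ _ _ _ _ _ _ hA m hm E' _ _ _ _ _ _ _ S' hS' hSS ρ hρ hT hr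
    exact h22 E' S' hS' hSS A hA m hm ρ hρ hT hr

end Pool.Agent.Helper42.EQMU.Res
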